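import Pool.Agent.Helper94.ETC.I2.Top
import Pool.Agent.Helper94.ETC.Basic

set_option autoImplicit false

/-! # Extension of symbols from subgroups of index at most four -/

namespace Pool.Agent.Helper94.I2

open Module Submodule Pool.Agent.H315R3.ETC Pool.Agent.Helper94.ETC

variable {S : QData} (hS : IsQuat S)

/-- the value group of `a` as a subspace -/
def VS (hS : IsQuat S) [Module (ZMod 2) (Additive S.G)] (a : Additive S.G) :
    Submodule (ZMod 2) (Additive S.G) where
  carrier := {x | S.q a.toMul x.toMul = S.zero}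
  add_mem' := fun hx hy => mul_right hS hx hy
  zero_mem' := Pool.Agent.Helper94.ETC.q_one hS _
  smul_mem' := by
    intro c x hx
    rcases z01 c with rfl | rfl
    · rw [zero_smul]; exact Pool.Agent.Helper94.ETC.q_one hS _
    · rw [one_smul]; exact hx

/-- the functionals vanishing on the value group of `a` -/
def Aq (hS : IsQuat S) [Module (ZMod 2) (Additive S.G)] (a : Additive S.G) :
    Submodule (ZMod 2) (Dual (ZMod 2) (Additive S.G)) := (VS hS a).dualAnnihilator

theorem mem_VS [Module (ZMod 2) (Additive S.G)] {a x : Additive S.G} :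
    x ∈ VS hS a ↔ S.q a.toMul x.toMul = S.zero := Iff.rfl

theorem mem_Aq [Module (ZMod 2) (Additive S.G)] {a : Additive S.G}
    {f : Dual (ZMod 2) (Additive S.G)} : f ∈ Aq hS a ↔ ∀ x ∈ VS hS a, f x = 0 :=
  mem_dualAnnihilator f

variable [Module (ZMod 2) (Additive S.G)] {W : Submodule (ZMod 2) (Additive S.G)}
  {h : Additive S.G →ₗ[ZMod 2] Dual (ZMod 2) (Additive S.G)}

/-- symbols respect equalities of quaternions -/
theorem sy_wd (hh : h ∈ Sy (Aq hS) W) {a b c d : Additive S.G} (ha : a ∈ W) (hc : c ∈ W)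
    (e : S.q a.toMul b.toMul = S.q c.toMul d.toMul) : h a b = h c d := by
  obtain ⟨x, h1, h2, h3⟩ := link hS e
  have e1 : h a (b + Additive.ofMul x) = 0 := (mem_Aq hS).1 (hh a ha) _ (of_eq_r hS h1)
  have e2 : h c (d + Additive.ofMul x) = 0 := (mem_Aq hS).1 (hh c hc) _ (of_eq_r hS h2)
  have e3 : h (a + c) (Additive.ofMul x) = 0 := (mem_Aq hS).1 (hh _ (add_mem ha hc)) _ h3
  rw [map_add] at e1 e2
  rw [map_add, LinearMap.add_apply] at e3
  rw [aez.1 e1, aez.1 e3, ← aez.1 e2]

theorem sy_comm (hh : h ∈ Sy (Aq hS) W) {a b : Additive S.G} (ha : a ∈ W) (hb : b ∈ W) :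
    h a b = h b a := sy_wd hS hh ha hb (hS.qs2 _ _)

theorem sy_zero (hh : h ∈ Sy (Aq hS) W) {a b : Additive S.G} (ha : a ∈ W)
    (e : S.q b.toMul a.toMul = S.zero) : h a b = 0 :=
  (mem_Aq hS).1 (hh a ha) _ (by rw [mem_VS, hS.qs2]; exact e)

/-- the value at `z` and at `z'` -/
theorem sy_cons (hh : h ∈ Sy (Aq hS) W) {z z' w v w' v' : Additive S.G} (hw : w ∈ W) (hv : v ∈ W)
    (hw' : w' ∈ W) (hv' : v' ∈ W) (e : S.q (z + w).toMul (z' + v).toMul = S.zero)
    (e' : S.q (z + w').toMul (z' + v').toMul = S.zero) :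
    h v z + h w (z' + v) = h v' z + h w' (z' + v') := by
  have e1 : S.q (z + w).toMul (v + v').toMul = S.q (z + w).toMul (z' + v').toMul := by
    apply eq_r hS
    have : (v + v') + (z' + v') = z' + v := by
      have : (v + v') + (z' + v') = z' + v + (v' + v') := by abel
      rw [this, vadd, add_zero]
    have h1 : S.q (z + w).toMul ((v + v') + (z' + v')).toMul = S.zero := by rw [this]; exact e
    exact h1
  have e2 : S.q (z + w).toMul (z' + v').toMul = S.q (w + w').toMul (z' + v').toMul := by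
    apply eq_l hS
    have : (z + w) + (w + w') = z + w' := by
      have : (z + w) + (w + w') = z + w' + (w + w) := by abel
      rw [this, vadd, add_zero]
    have h1 : S.q ((z + w) + (w + w')).toMul (z' + v').toMul = S.zero := by rw [this]; exact e'
    exact h1
  have e3 := sy_wd hS hh (add_mem hv hv') (add_mem hw hw') ((hS.qs2 _ _).trans (e1.trans e2))
  simp only [map_add, LinearMap.add_apply] at e3
  rw [sy_comm hS hh hv hw, sy_comm hS hh hv' hw] at e3
  rw [map_add, map_add]
  have t1 := vadd (h v' z)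
  have t3 := vadd (h w z')
  linear_combination e3 - t1 + t3

/-- the case in which `W` does not contain `-z` -/
theorem cod_a (hh : h ∈ Sy (Aq hS) W) (z z' : Additive S.G)
    (hz : Additive.ofMul S.neg + z ∉ W)
    (hz' : ∀ x, x ∈ W ⊔ span (ZMod 2) {Additive.ofMul S.neg + z} ∨
      x + z' ∈ W ⊔ span (ZMod 2) {Additive.ofMul S.neg + z}) :
    ∃ g, ∀ w ∈ W, g + h w ∈ Aq hS (z + w) := by
  classical
  set m : Additive S.G := Additive.ofMul S.neg with hm
  set U := W ⊔ span (ZMod 2) {m + z} with hU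
  have hWU : W ≤ U := le_sup_left
  have hmU : m + z ∈ U := mem_sup_right (mem_span_singleton_self _)
  -- the value at `z'`
  obtain ⟨t, ht⟩ : ∃ t : ZMod 2, ∀ w ∈ W, ∀ v ∈ W,
      S.q (z + w).toMul (z' + v).toMul = S.zero → h v z + h w (z' + v) = t := by
    by_cases hex : ∃ w ∈ W, ∃ v ∈ W, S.q (z + w).toMul (z' + v).toMul = S.zero
    · obtain ⟨w, hw, v, hv, e⟩ := hex
      exact ⟨h v z + h w (z' + v), fun w' hw' v' hv' e' =>
        sy_cons hS hh hw' hv' hw hv e' e⟩
    · exact ⟨0, fun w hw v hv e => absurd ⟨w, hw, v, hv, e⟩ hex⟩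
  -- the functional
  obtain ⟨g, g1, g2, g3⟩ : ∃ g : Dual (ZMod 2) (Additive S.G), (∀ v ∈ W, g v = h v z) ∧
      g (m + z) = 0 ∧ (z' ∉ U → g z' = t) := by
    obtain ⟨l, hl1, hl2⟩ := Submodule.exists_le_ker_of_notMem hz
    have l1 : l (m + z) = 1 := zne hl1
    have l0 : ∀ w ∈ W, l w = 0 := fun w hw => hl2 hw
    obtain ⟨g0, a1, a2⟩ : ∃ g : Dual (ZMod 2) (Additive S.G), (∀ v ∈ W, g v = h v z) ∧
        g (m + z) = 0 := by
      refine ⟨h.flip z + h.flip z (m + z) • l, fun v hv => ?_, ?_⟩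
      · rw [LinearMap.add_apply, LinearMap.smul_apply, l0 v hv, smul_zero, add_zero]
        rfl
      · rw [LinearMap.add_apply, LinearMap.smul_apply, l1, smul_eq_mul, mul_one, vadd]
    by_cases hzU : z' ∈ U
    · exact ⟨g0, a1, a2, fun hn => absurd hzU hn⟩
    · obtain ⟨k, hk1, hk2⟩ := Submodule.exists_le_ker_of_notMem hzU
      have k1 : k z' = 1 := zne hk1
      have k0 : ∀ w ∈ U, k w = 0 := fun w hw => hk2 hw
      refine ⟨g0 + (g0 z' + t) • k, fun v hv => ?_, ?_, fun _ => ?_⟩
      · rw [LinearMap.add_apply, LinearMap.smul_apply, k0 v (hWU hv), smul_zero, add_zero, a1 v hv]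
      · rw [LinearMap.add_apply, LinearMap.smul_apply, k0 _ hmU, smul_zero, add_zero, a2]
      · rw [LinearMap.add_apply, LinearMap.smul_apply, k1, smul_eq_mul, mul_one, ← add_assoc, vadd,
          zero_add]
  refine ⟨g, fun w hw => (mem_Aq hS).2 ?_⟩
  -- the value at `-(z + w)`
  have hneg : m + z + w ∈ VS hS (z + w) := by
    rw [mem_VS, add_assoc]
    exact hS.qs1 _
  have hwm : h w (m + w) = 0 := (mem_Aq hS).1 (hh w hw) _ (hS.qs1 _)
  have hgneg : (g + h w) (m + z + w) = 0 := by
    have e1 : h w (m + z + w) = h w z + h w (m + w) := by rw [← map_add]; congr 1; abel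
    rw [LinearMap.add_apply, map_add g, g2, g1 w hw, e1, hwm, add_zero, zero_add, vadd]
  -- reduction to the elements of `W` and `z' + W`
  have red : ∀ y, y ∈ U → ∃ v ∈ W, y = v ∨ y = v + (m + z) := by
    intro y hy
    obtain ⟨v, hv, y', hy', rfl⟩ := mem_sup.1 hy
    obtain ⟨c, rfl⟩ := mem_span_singleton.1 hy'
    rcases z01 c with rfl | rfl
    · exact ⟨v, hv, Or.inl (by rw [zero_smul, add_zero])⟩
    · exact ⟨v, hv, Or.inr (by rw [one_smul])⟩
  have c1 : ∀ v ∈ W, v ∈ VS hS (z + w) → (g + h w) v = 0 := by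
    intro v hv hx
    have e1 : h v (z + w) = 0 := sy_zero hS hh hv hx
    rw [LinearMap.add_apply, g1 v hv, sy_comm hS hh hw hv, ← map_add, e1]
  have c2 : ∀ v ∈ W, z' ∉ U → z' + v ∈ VS hS (z + w) → (g + h w) (z' + v) = 0 := by
    intro v hv hn hx
    have e1 := ht w hw v hv hx
    rw [LinearMap.add_apply, map_add g, g3 hn, g1 v hv, add_assoc, e1, vadd]
  have shift : ∀ y, y + (m + z + w) ∈ VS hS (z + w) → (g + h w) (y + (m + z + w)) = 0 →
      y ∈ VS hS (z + w) ∧ (g + h w) y = 0 := by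
    intro y hy1 hy2
    have e1 : y = y + (m + z + w) + (m + z + w) := by
      rw [add_assoc, vadd, add_zero]
    refine ⟨by rw [e1]; exact add_mem hy1 hneg, ?_⟩
    rw [e1, map_add, hy2, hgneg, add_zero]
  intro x hx
  by_cases hxU : x ∈ U
  · obtain ⟨v, hv, rfl | rfl⟩ := red x hxU
    · exact c1 x hv hx
    · have e1 : v + (m + z) + (m + z + w) = v + w := by
        have : v + (m + z) + (m + z + w) = v + w + ((m + z) + (m + z)) := by abel
        rw [this, vadd, add_zero]
      have e2 := add_mem hx hneg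
      rw [e1] at e2
      refine (shift _ (add_mem hx hneg) ?_).2
      rw [e1]
      exact c1 _ (add_mem hv hw) e2
  · have hxz := (hz' x).resolve_left hxU
    have hn : z' ∉ U := by
      intro hz1
      apply hxU
      have := add_mem hxz hz1
      rwa [add_assoc, vadd, add_zero] at this
    obtain ⟨v, hv, e | e⟩ := red _ hxz
    · have e3 : x = z' + v := by rw [← e, add_comm x, ← add_assoc, vadd, zero_add]
      rw [e3] at hx ⊢
      exact c2 v hv hn hx
    · have e3 : x = z' + v + (m + z) := by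
        rw [add_assoc, ← e, add_comm x, ← add_assoc, vadd, zero_add]
      rw [e3] at hx ⊢
      have e1 : z' + v + (m + z) + (m + z + w) = z' + (v + w) := by
        have : z' + v + (m + z) + (m + z + w) = z' + (v + w) + ((m + z) + (m + z)) := by abel
        rw [this, vadd, add_zero]
      have e2 := add_mem hx hneg
      rw [e1] at e2
      refine (shift _ (add_mem hx hneg) ?_).2
      rw [e1]
      exact c2 _ (add_mem hv hw) hn e2

/-- the case of the element `-1` -/
theorem cod_b (hh : h ∈ Sy (Aq hS) W) (hm : Additive.ofMul S.neg ∉ W)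
    (hx : ∀ x, x ∈ W ∨ x + Additive.ofMul S.neg ∈ W) :
    ∃ g, ∀ w ∈ W, g + h w ∈ Aq hS (Additive.ofMul S.neg + w) := by
  classical
  set m : Additive S.G := Additive.ofMul S.neg with hm'
  obtain ⟨t, ht⟩ : ∃ t : ZMod 2, ∀ w ∈ W, ∀ v ∈ W,
      S.q (m + w).toMul (m + v).toMul = S.zero → h v m + h w (m + v) = t := by
    by_cases hex : ∃ w ∈ W, ∃ v ∈ W, S.q (m + w).toMul (m + v).toMul = S.zero
    · obtain ⟨w, hw, v, hv, e⟩ := hex
      exact ⟨h v m + h w (m + v), fun w' hw' v' hv' e' =>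
        sy_cons hS hh hw' hv' hw hv e' e⟩
    · exact ⟨0, fun w hw v hv e => absurd ⟨w, hw, v, hv, e⟩ hex⟩
  obtain ⟨l, hl1, hl2⟩ := Submodule.exists_le_ker_of_notMem hm
  have l1 : l m = 1 := zne hl1
  have l0 : ∀ w ∈ W, l w = 0 := fun w hw => hl2 hw
  obtain ⟨g, g1, g2⟩ : ∃ g : Dual (ZMod 2) (Additive S.G), (∀ v ∈ W, g v = h v m) ∧
      g m = t := by
    refine ⟨h.flip m + (h.flip m m + t) • l, fun v hv => ?_, ?_⟩
    · rw [LinearMap.add_apply, LinearMap.smul_apply, l0 v hv, smul_zero, add_zero]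
      rfl
    · rw [LinearMap.add_apply, LinearMap.smul_apply, l1, smul_eq_mul, mul_one, ← add_assoc, vadd,
        zero_add]
  refine ⟨g, fun w hw => (mem_Aq hS).2 fun x hxV => ?_⟩
  rcases hx x with hxW | hxW
  · have e1 : h x (m + w) = 0 := sy_zero hS hh hxW hxV
    rw [LinearMap.add_apply, g1 x hxW, sy_comm hS hh hw hxW, ← map_add, e1]
  · have e3 : x = m + (x + m) := by rw [add_comm x, ← add_assoc, vadd, zero_add]
    have e1 := ht w hw _ hxW (by rw [← e3]; exact hxV)
    rw [e3, LinearMap.add_apply, map_add g, g2, g1 _ hxW, add_assoc, e1, vadd]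

/-- a subspace of codimension at most one -/
theorem cod_one {V : Type} [AddCommGroup V] [Module (ZMod 2) V] [Finite V]
    {U : Submodule (ZMod 2) V} (hU : finrank (ZMod 2) V ≤ finrank (ZMod 2) U + 1) :
    ∃ z, ∀ x, x ∈ U ∨ x + z ∈ U := by
  by_cases h : U = ⊤
  · exact ⟨0, fun x => Or.inl (h ▸ mem_top)⟩
  obtain ⟨z, -, hz⟩ := SetLike.exists_of_lt (lt_top_iff_ne_top.2 h)
  have h1 : U < U ⊔ span (ZMod 2) {z} := by
    refine lt_of_le_of_ne le_sup_left fun h2 => hz ?_
    rw [h2]
    exact mem_sup_right (mem_span_singleton_self z)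
  have h2 := Submodule.finrank_lt_finrank_of_lt h1
  have h3 : U ⊔ span (ZMod 2) {z} = ⊤ := by
    by_contra hne
    have := Submodule.finrank_lt hne
    omega
  refine ⟨z, fun x => ?_⟩
  obtain ⟨u, hu, y, hy, rfl⟩ := mem_sup.1 (h3 ▸ mem_top : x ∈ U ⊔ span (ZMod 2) {z})
  obtain ⟨c, rfl⟩ := mem_span_singleton.1 hy
  rcases z01 c with rfl | rfl
  · left; rwa [zero_smul, add_zero]
  · right; rwa [one_smul, add_assoc, vadd, add_zero]

/-- symbols on proper subgroups of index at most four extend to some further element -/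
theorem cod_two [Finite S.G] (hne : W ≠ ⊤)
    (hW : finrank (ZMod 2) (Additive S.G) ≤ finrank (ZMod 2) W + 2) :
    ∃ z, z ∉ W ∧ Ex (Aq hS) W z := by
  have hfin' : Finite (Additive S.G) := ‹Finite S.G›
  set m : Additive S.G := Additive.ofMul S.neg with hm
  -- the first case
  have key : ∀ z, z ∉ W → m + z ∉ W → ∃ z, z ∉ W ∧ Ex (Aq hS) W z := by
    intro z hz hmz
    have h1 : W < W ⊔ span (ZMod 2) {m + z} := by
      refine lt_of_le_of_ne le_sup_left fun h2 => hmz ?_
      rw [h2]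
      exact mem_sup_right (mem_span_singleton_self _)
    have h2 := Submodule.finrank_lt_finrank_of_lt h1
    obtain ⟨z', hz'⟩ := cod_one (U := W ⊔ span (ZMod 2) {m + z}) (by omega)
    exact ⟨z, hz, fun h hh => by
      obtain ⟨g, hg⟩ := cod_a hS hh z z' hmz hz'
      exact ex_of_val hh g hg⟩
  by_cases hmW : m ∈ W
  · obtain ⟨z, -, hz⟩ := SetLike.exists_of_lt (lt_top_iff_ne_top.2 hne)
    refine key z hz fun h1 => hz ?_
    have := add_mem hmW h1
    rwa [← add_assoc, vadd, zero_add] at this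
  · by_cases hT : W ⊔ span (ZMod 2) {m} = ⊤
    · refine ⟨m, hmW, fun h hh => ?_⟩
      obtain ⟨g, hg⟩ := cod_b hS hh hmW (by
        intro x
        obtain ⟨u, hu, y, hy, rfl⟩ := mem_sup.1 (hT ▸ mem_top : x ∈ W ⊔ span (ZMod 2) {m})
        obtain ⟨c, rfl⟩ := mem_span_singleton.1 hy
        rcases z01 c with rfl | rfl
        · left; rwa [zero_smul, add_zero]
        · right; rwa [one_smul, add_assoc, vadd, add_zero])
      exact ex_of_val hh g hg
    · obtain ⟨z, -, hz⟩ := SetLike.exists_of_lt (lt_top_iff_ne_top.2 hT)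
      refine key z (fun h1 => hz (mem_sup_left h1)) fun h1 => hz ?_
      have := add_mem (mem_sup_right (mem_span_singleton_self m) :
        m ∈ W ⊔ span (ZMod 2) {m}) (mem_sup_left h1)
      rwa [← add_assoc, vadd, zero_add] at this

end Pool.Agent.Helper94.I2
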