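import Mathlib

set_option autoImplicit false

/-! # Symbols on subspaces: elements of index at most two

`A a` is a space of functionals for every vector `a` of a finite vector space over the field with two
elements. A symbol on a subspace `W` is a linear map `h` with `h w ∈ A w` for `w ∈ W`. -/

namespace Pool.Agent.Helper94.I2

open Module Submodule

variable {V : Type} [AddCommGroup V] [Module (ZMod 2) V]

theorem z01 (x : ZMod 2) : x = 0 ∨ x = 1 := by
  revert x; decide

theorem zne {x : ZMod 2} (h : x ≠ 0) : x = 1 := (z01 x).resolve_left h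

theorem vadd {M : Type*} [AddCommGroup M] [Module (ZMod 2) M] (x : M) : x + x = 0 := by
  have h : (2 : ZMod 2) • x = 0 := by
    have : (2 : ZMod 2) = 0 := by decide
    rw [this, zero_smul]
  rwa [two_smul] at h

theorem aez {M : Type*} [AddCommGroup M] [Module (ZMod 2) M] {x y : M} : x + y = 0 ↔ x = y := by
  constructor
  · intro h
    have : x + y + y = y := by rw [h, zero_add]
    rwa [add_assoc, vadd, add_zero] at this
  · rintro rfl
    exact vadd x

/-- the symbols on `W` -/
def Sy (A : V → Submodule (ZMod 2) (Dual (ZMod 2) V)) (W : Submodule (ZMod 2) V) :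
    Submodule (ZMod 2) (V →ₗ[ZMod 2] Dual (ZMod 2) V) where
  carrier := {h | ∀ w ∈ W, h w ∈ A w}
  add_mem' := fun hf hg w hw => (A w).add_mem (hf w hw) (hg w hw)
  zero_mem' := fun w _ => (A w).zero_mem
  smul_mem' := fun c _ hf w hw => (A w).smul_mem c (hf w hw)

variable {A : V → Submodule (ZMod 2) (Dual (ZMod 2) V)}

theorem mem_Sy {W : Submodule (ZMod 2) V} {h : V →ₗ[ZMod 2] Dual (ZMod 2) V} :
    h ∈ Sy A W ↔ ∀ w ∈ W, h w ∈ A w := Iff.rfl

theorem Sy_anti {W W' : Submodule (ZMod 2) V} (hW : W ≤ W') : Sy A W' ≤ Sy A W :=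
  fun _ hh w hw => hh w (hW hw)

/-- symbols on at most four elements extend to one more element -/
def Lk (A : V → Submodule (ZMod 2) (Dual (ZMod 2) V)) : Prop :=
  ∀ u v z, ∀ f ∈ A u, ∀ g ∈ A v, f + g ∈ A (u + v) →
    ∃ k ∈ A z, k + f ∈ A (z + u) ∧ k + g ∈ A (z + v) ∧ k + (f + g) ∈ A (z + (u + v))

/-- symbols on `W` extend to `z` -/
def Ex (A : V → Submodule (ZMod 2) (Dual (ZMod 2) V)) (W : Submodule (ZMod 2) V) (z : V) : Prop :=
  ∀ h ∈ Sy A W, ∃ h' ∈ Sy A (W ⊔ span (ZMod 2) {z}), ∀ w ∈ W, h' w = h w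

theorem ex_of_val {W : Submodule (ZMod 2) V} {z : V} {h : V →ₗ[ZMod 2] Dual (ZMod 2) V}
    (hh : h ∈ Sy A W) (g : Dual (ZMod 2) V) (hg : ∀ w ∈ W, g + h w ∈ A (z + w)) :
    ∃ h' ∈ Sy A (W ⊔ span (ZMod 2) {z}), ∀ w ∈ W, h' w = h w := by
  by_cases hz : z ∈ W
  · refine ⟨h, ?_, fun _ _ => rfl⟩
    have : W ⊔ span (ZMod 2) {z} = W := by
      rw [sup_eq_left, span_le]
      simpa using hz
    rw [this]; exact hh
  · obtain ⟨l, hl1, hl2⟩ := Submodule.exists_le_ker_of_notMem hz
    have l1 : l z = 1 := zne hl1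
    have l0 : ∀ w ∈ W, l w = 0 := fun w hw => hl2 hw
    refine ⟨h + l.smulRight (g + h z), ?_, fun w hw => ?_⟩
    · intro x hx
      obtain ⟨w, hw, y, hy, rfl⟩ := mem_sup.1 hx
      obtain ⟨c, rfl⟩ := mem_span_singleton.1 hy
      rcases z01 c with rfl | rfl
      · simp only [zero_smul, add_zero, LinearMap.add_apply, LinearMap.smulRight_apply, l0 w hw]
        exact hh w hw
      · simp only [one_smul, LinearMap.add_apply, LinearMap.smulRight_apply, map_add, l0 w hw, l1,
          zero_smul, add_zero]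
        have e : h w + (h z + (g + h z)) = g + h w := by
          have : h w + (h z + (g + h z)) = (g + h w) + (h z + h z) := by abel
          rw [this, vadd, add_zero]
        rw [e, add_comm w z]
        exact hg w hw
    · simp only [LinearMap.add_apply, LinearMap.smulRight_apply, l0 w hw, zero_smul, add_zero]

theorem ex_pair (hL : Lk A) (u v z : V) : Ex A (span (ZMod 2) {u, v}) z := by
  intro h hh
  have hu : u ∈ span (ZMod 2) {u, v} := subset_span (by simp)
  have hv : v ∈ span (ZMod 2) {u, v} := subset_span (by simp)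
  obtain ⟨k, k0, k1, k2, k3⟩ := hL u v z (h u) (hh u hu) (h v) (hh v hv) (by
    rw [← map_add]; exact hh _ (add_mem hu hv))
  refine ex_of_val hh k fun w hw => ?_
  obtain ⟨a, b, rfl⟩ := mem_span_pair.1 hw
  rcases z01 a with rfl | rfl <;> rcases z01 b with rfl | rfl
  · simpa using k0
  · simpa using k2
  · simpa using k1
  · simpa using k3

/-- `a` has index at most two -/
def Ix (A : V → Submodule (ZMod 2) (Dual (ZMod 2) V)) : Set V :=
  {a | ∃ l ∈ A a, ∀ f ∈ A a, f = 0 ∨ f = l}

theorem ex_ix (hL : Lk A) {a : V} (ha : a ∈ Ix A) (W : Submodule (ZMod 2) V) : Ex A W a := by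
  intro h hh
  by_cases h0 : ∀ w ∈ W, h w ∈ A (a + w)
  · exact ex_of_val hh 0 fun w hw => by rw [zero_add]; exact h0 w hw
  · push Not at h0
    obtain ⟨w0, hw0, h0⟩ := h0
    obtain ⟨l, -, hl⟩ := ha
    refine ex_of_val hh l fun w hw => ?_
    obtain ⟨k, k0, k1, k2, -⟩ := hL w0 w a (h w0) (hh w0 hw0) (h w) (hh w hw) (by
      rw [← map_add]; exact hh _ (add_mem hw0 hw))
    rcases hl k k0 with rfl | rfl
    · rw [zero_add] at k1
      exact absurd k1 h0
    · exact k2

/-- symbols extend along elements of index at most two -/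
theorem ex_span (hL : Lk A) (T : Finset V) (hT : ∀ a ∈ T, a ∈ Ix A) :
    ∀ (W : Submodule (ZMod 2) V), ∀ h ∈ Sy A W,
      ∃ h' ∈ Sy A (W ⊔ span (ZMod 2) (T : Set V)), ∀ w ∈ W, h' w = h w := by
  classical
  induction T using Finset.induction_on with
  | empty =>
    intro W h hh
    refine ⟨h, ?_, fun _ _ => rfl⟩
    rw [Finset.coe_empty, span_empty, sup_bot_eq]
    exact hh
  | insert a T _ ih =>
    intro W h hh
    obtain ⟨h1, hh1, e1⟩ := ex_ix hL (hT a (Finset.mem_insert_self a T)) W h hh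
    obtain ⟨h2, hh2, e2⟩ := ih (fun b hb => hT b (Finset.mem_insert_of_mem hb)) _ h1 hh1
    refine ⟨h2, ?_, fun w hw => ?_⟩
    · rw [Finset.coe_insert, span_insert, ← sup_assoc]
      exact hh2
    · rw [e2 w (mem_sup_left hw), e1 w hw]

theorem ex_E [Finite V] (hL : Lk A) (W : Submodule (ZMod 2) V) (h : V →ₗ[ZMod 2] Dual (ZMod 2) V)
    (hh : h ∈ Sy A W) :
    ∃ h' ∈ Sy A (W ⊔ span (ZMod 2) (Ix A)), ∀ w ∈ W, h' w = h w := by
  classical
  have hf : (Ix A).Finite := Set.toFinite _
  have := ex_span hL hf.toFinset (fun a ha => hf.mem_toFinset.1 ha) W h hh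
  rwa [hf.coe_toFinset] at this

end Pool.Agent.Helper94.I2
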