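import Pool.Agent.Helper94.ETC.I2.Cod
import Pool.Agent.Helper94.ETC.Count
import Pool.Graph.R_seed8.Results.MP_d26ff6_al.SymbolExtension

set_option autoImplicit false

/-! # Structures whose elements of index at most two generate a large subgroup -/

namespace Pool.Agent.Helper94.I2

open Module Submodule Pool.Agent.H315R3.ETC Pool.Agent.Helper94.ETC
open Pool.Agent.Results.MP_d26ff6_al.SymbolExtension (IsSymbol ProductSymbolsExtend)

variable {S : QData} (hS : IsQuat S)

/-- the graph of `f` on a subspace -/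
def Gr {V : Type} [AddCommGroup V] [Module (ZMod 2) V] (W : Submodule (ZMod 2) V)
    (f : Dual (ZMod 2) V) : Submodule (ZMod 2) (V × ZMod 2) :=
  W.map (LinearMap.prod LinearMap.id f)

theorem lk [Module (ZMod 2) (Additive S.G)] : Lk (Aq hS) := by
  intro u v z f hf g hg hfg
  rw [mem_Aq] at hf hg hfg
  let K : Submodule (ZMod 2) (Additive S.G × ZMod 2) :=
    Gr (VS hS z) 0 ⊔ Gr (VS hS (z + u)) f ⊔ Gr (VS hS (z + v)) g ⊔
      Gr (VS hS (z + (u + v))) (f + g)
  have hK : ((0 : Additive S.G), (1 : ZMod 2)) ∉ K := by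
    intro h
    obtain ⟨p1, hp1, p4, ⟨y4, hy4, rfl⟩, e1⟩ := mem_sup.1 h
    obtain ⟨p2, hp2, p3, ⟨y3, hy3, rfl⟩, rfl⟩ := mem_sup.1 hp1
    obtain ⟨_, ⟨y1, hy1, rfl⟩, _, ⟨y2, hy2, rfl⟩, rfl⟩ := mem_sup.1 hp2
    have s1 : y1 + y2 + y3 + y4 = 0 := congrArg Prod.fst e1
    have s2 : 0 + f y2 + g y3 + (f y4 + g y4) = 1 := congrArg Prod.snd e1
    have hy1' : S.q z.toMul y1.toMul = S.zero := hy1
    have q2 : S.q u.toMul y2.toMul = S.q z.toMul y2.toMul := (eq_l hS hy2).symm
    have q3 : S.q v.toMul y3.toMul = S.q z.toMul y3.toMul := (eq_l hS hy3).symm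
    have q4 : S.q (u.toMul * v.toMul) y4.toMul = S.q z.toMul y4.toMul := (eq_l hS hy4).symm
    have hy : y2 + y3 + y4 = y1 := by
      have : y1 + (y2 + y3 + y4) = 0 := by rw [← s1]; abel
      exact (aez.1 this).symm
    have q1 : S.q z.toMul (y2.toMul * y3.toMul * y4.toMul) = S.zero := by
      have h1 : S.q z.toMul (y2 + y3 + y4).toMul = S.zero := by rw [hy]; exact hy1'
      exact h1
    obtain ⟨x, x2, x3, x4⟩ := triple hS q2 q3 q4 q1
    have f2 : f (y2 + Additive.ofMul x) = 0 := hf _ (of_eq_r hS x2)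
    have f3 : g (y3 + Additive.ofMul x) = 0 := hg _ (of_eq_r hS x3)
    have f4 : (f + g) (y4 + Additive.ofMul x) = 0 := hfg _ (of_eq_r hS x4)
    rw [map_add] at f2 f3
    rw [LinearMap.add_apply, map_add, map_add] at f4
    rw [aez.1 f2, aez.1 f3] at s2
    have s3 : 0 + f (Additive.ofMul x) + g (Additive.ofMul x) + (f y4 + g y4) =
        f y4 + f (Additive.ofMul x) + (g y4 + g (Additive.ofMul x)) := by ring
    rw [s3, f4] at s2
    exact zero_ne_one s2
  obtain ⟨φ, hφ1, hφ2⟩ := Submodule.exists_le_ker_of_notMem hK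
  have hφ : φ (0, 1) = 1 := zne hφ1
  have key : ∀ (W : Submodule (ZMod 2) (Additive S.G)) (f' : Dual (ZMod 2) (Additive S.G)),
      Gr W f' ≤ K → ∀ x ∈ W, (φ ∘ₗ LinearMap.inl (ZMod 2) (Additive S.G) (ZMod 2) + f') x = 0 := by
    intro W f' hle x hx
    have h1 : φ (x, f' x) = 0 := hφ2 (hle ⟨x, hx, rfl⟩)
    have h2 : φ (x, f' x) = φ (x, 0) + f' x * φ (0, 1) := by
      have : ((x, f' x) : Additive S.G × ZMod 2) = (x, 0) + f' x • ((0 : Additive S.G), (1 : ZMod 2)) := by
        simp
      rw [this, map_add, map_smul, smul_eq_mul]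
    rw [h2, hφ, mul_one] at h1
    exact h1
  refine ⟨φ ∘ₗ LinearMap.inl (ZMod 2) (Additive S.G) (ZMod 2), ?_, ?_, ?_, ?_⟩
  · rw [mem_Aq]
    intro x hx
    have := key _ 0 (le_sup_left.trans (le_sup_left.trans le_sup_left)) x hx
    rwa [add_zero] at this
  · rw [mem_Aq]
    exact key _ f (le_sup_right.trans (le_sup_left.trans le_sup_left))
  · rw [mem_Aq]
    exact key _ g (le_sup_right.trans le_sup_left)
  · rw [mem_Aq]
    exact key _ (f + g) le_sup_right

/-- elements with value groups of index at most two -/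
theorem ix_of_index [Module (ZMod 2) (Additive S.G)] [Finite S.G] {a : S.G}
    (ha : (VG hS a).index ≤ 2) : Additive.ofMul a ∈ Ix (Aq hS) := by
  have h2 : ∀ x y : S.G, x ∉ VG hS a → y ∉ VG hS a → x * y ∈ VG hS a := by
    intro x y hx hy
    have h0 : (VG hS a).index ≠ 0 := Subgroup.index_ne_zero_of_finite
    have h1 : (VG hS a).index ≠ 1 := by
      intro h1
      rw [Subgroup.index_eq_one] at h1
      exact hx (h1 ▸ Subgroup.mem_top x)
    have h3 : (VG hS a).index = 2 := by omega
    rw [Subgroup.mul_mem_iff_of_index_two h3]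
    exact ⟨fun h => absurd h hx, fun h => absurd h hy⟩
  by_cases hex : ∃ l ∈ Aq hS (Additive.ofMul a), l ≠ 0
  · obtain ⟨l, hl, hl0⟩ := hex
    refine ⟨l, hl, fun f hf => ?_⟩
    by_cases hf0 : f = 0
    · exact Or.inl hf0
    right
    have one : ∀ k ∈ Aq hS (Additive.ofMul a), k ≠ 0 → ∀ x : S.G, x ∉ VG hS a →
        k (Additive.ofMul x) = 1 := by
      intro k hk hk0 x hx
      obtain ⟨y, hy⟩ : ∃ y, k y ≠ 0 := by
        by_contra hc
        push Not at hc
        exact hk0 (LinearMap.ext hc)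
      have hy1 : y.toMul ∉ VG hS a := fun h1 => hy ((mem_Aq hS).1 hk y h1)
      have h3 := (mem_Aq hS).1 hk (Additive.ofMul x + y) (h2 _ _ hx hy1)
      rw [map_add, zne hy] at h3
      exact aez.1 h3
    refine LinearMap.ext fun x => ?_
    by_cases hx : x.toMul ∈ VG hS a
    · rw [(mem_Aq hS).1 hf x hx, (mem_Aq hS).1 hl x hx]
    · exact (one f hf hf0 x.toMul hx).trans (one l hl hl0 x.toMul hx).symm
  · push Not at hex
    exact ⟨0, zero_mem _, fun f hf => Or.inl (hex f hf)⟩

theorem sm [Module (ZMod 2) (Additive S.G)] : Sm (Aq hS) :=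
  fun _ _ hh _ ha _ hb => sy_comm hS hh ha hb

/-- `L` contains the elements of index at most two and the elements `a` such that `L` and the value
groups `V(au)`, `u ∈ L`, generate `G` -/
def Clos (hS : IsQuat S) (L : Subgroup S.G) : Prop :=
  ∀ a : S.G, ((VG hS a).index ≤ 2 ∨ L ⊔ ⨆ u ∈ L, VG hS (a * u) = ⊤) → a ∈ L

/-- the kernel of a functional as a subgroup -/
def kerG [Module (ZMod 2) (Additive S.G)] (f : Dual (ZMod 2) (Additive S.G)) : Subgroup S.G :=
  AddSubgroup.toSubgroup' (LinearMap.ker f).toAddSubgroup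

theorem clos_of_gd [Module (ZMod 2) (Additive S.G)] [Finite S.G]
    {F : Submodule (ZMod 2) (Additive S.G)} (hF : Gd (Aq hS) F) (hU : ∀ z ∈ Un (Aq hS) F, z ∈ F) :
    Clos hS (AddSubgroup.toSubgroup' F.toAddSubgroup) := by
  rintro a (ha | ha)
  · exact hF.le (subset_span (ix_of_index hS ha))
  · refine hU (Additive.ofMul a) fun f hf hf0 => ?_
    have h1 : (⊤ : Subgroup S.G) ≤ kerG f := by
      rw [← ha]
      refine sup_le (fun u hu => ?_) (iSup₂_le fun u hu x hx => ?_)
      · exact hf0 (Additive.ofMul u) hu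
      · exact (mem_Aq hS).1 (hf (Additive.ofMul u) hu) (Additive.ofMul x) hx
    exact LinearMap.ext fun x => h1 (Subgroup.mem_top x.toMul)

/-- extension of symbols when the core has index at most sixteen -/
theorem elem_of_index (S : QData) (hS : IsQuat S) (hfin : Finite S.G)
    (h : (sInf {L : Subgroup S.G | Clos hS L}).index ≤ 16) : Elem S := by
  classical
  let _ : Module (ZMod 2) (Additive S.G) := AddCommGroup.zmodModule (n := 2) (by
    intro x
    rw [two_smul]
    exact hS.exp2 x.toMul)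
  have hfin' : Finite (Additive S.G) := hfin
  rw [(Pool.Agent.Results.MP_d26ff6_al.SymbolExtension.result S hS hfin).2]
  obtain ⟨F, hF, hU⟩ := exists_gd (lk hS) (sm hS)
  -- the subspaces above `F`
  have hc : ∀ W : Submodule (ZMod 2) (Additive S.G), F ≤ W → W ≠ ⊤ →
      ∃ z, z ∉ W ∧ Ex (Aq hS) W z := by
    have hidx : Nat.card (Additive S.G ⧸ F) ≤ 16 := by
      have h1' : sInf {L : Subgroup S.G | Clos hS L} ≤ AddSubgroup.toSubgroup' F.toAddSubgroup :=
        sInf_le (clos_of_gd hS hF hU)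
      have h1 : Subgroup.toAddSubgroup (sInf {L : Subgroup S.G | Clos hS L}) ≤
          F.toAddSubgroup := h1'
      have h2 := AddSubgroup.index_dvd_of_le h1
      rw [Subgroup.index_toAddSubgroup] at h2
      have h0 : (sInf {L : Subgroup S.G | Clos hS L}).index ≠ 0 :=
        Subgroup.index_ne_zero_of_finite
      have h3 := Nat.le_of_dvd (Nat.pos_of_ne_zero h0) h2
      have h4 : Nat.card (Additive S.G ⧸ F) = F.toAddSubgroup.index := rfl
      omega
    have hfr : finrank (ZMod 2) (Additive S.G ⧸ F) ≤ 4 := by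
      have h1 := Module.natCard_eq_pow_finrank (K := ZMod 2) (V := Additive S.G ⧸ F)
      rw [Nat.card_zmod] at h1
      by_contra hlt
      push Not at hlt
      have : 2 ^ 5 ≤ 2 ^ finrank (ZMod 2) (Additive S.G ⧸ F) := Nat.pow_le_pow_right (by norm_num) hlt
      omega
    have hq := Submodule.finrank_quotient_add_finrank F
    intro W hW hne
    by_cases hWF : finrank (ZMod 2) W ≤ finrank (ZMod 2) F + 1
    · obtain ⟨z, -, hz⟩ := SetLike.exists_of_lt (lt_top_iff_ne_top.2 hne)
      refine ⟨z, hz, ?_⟩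
      obtain ⟨x, rfl⟩ : ∃ x, W = F ⊔ span (ZMod 2) {x} := by
        by_cases hWE : W = F
        · exact ⟨0, by rw [hWE]; simp⟩
        obtain ⟨x, hx, hxF⟩ := SetLike.exists_of_lt (lt_of_le_of_ne hW (Ne.symm hWE))
        have h1 : F < F ⊔ span (ZMod 2) {x} := by
          refine lt_of_le_of_ne le_sup_left fun h2 => hxF ?_
          rw [h2]
          exact mem_sup_right (mem_span_singleton_self x)
        have h2 := Submodule.finrank_lt_finrank_of_lt h1
        have h4 : F ⊔ span (ZMod 2) {x} ≤ W := sup_le hW (by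
          rw [span_le, Set.singleton_subset_iff]; exact hx)
        exact ⟨x, (Submodule.eq_of_le_of_finrank_le h4 (by omega)).symm⟩
      exact ex_one (lk hS) hF x z
    · exact cod_two hS hne (by omega)
  intro W l f hl hf hsym
  let l' : Dual (ZMod 2) (Additive S.G) :=
    AddMonoidHom.toZModLinearMap 2 (AddMonoidHom.mk' (fun x : Additive S.G => l x.toMul)
      fun a b => hl a.toMul b.toMul)
  let f' : Dual (ZMod 2) (Additive S.G) :=
    AddMonoidHom.toZModLinearMap 2 (AddMonoidHom.mk' (fun x : Additive S.G => f x.toMul)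
      fun a b => hf a.toMul b.toMul)
  let W' : Submodule (ZMod 2) (Additive S.G) :=
    AddSubgroup.toZModSubmodule 2 (Subgroup.toAddSubgroup W)
  have hh : l'.smulRight f' ∈ Sy (Aq hS) W' := by
    intro w hw
    rw [mem_Aq]
    intro x hx
    exact hsym.2.2 w.toMul hw x.toMul hx
  obtain ⟨h', hh', he⟩ := ex_all hF hc W' _ hh
  refine ⟨fun a b => h' (Additive.ofMul a) (Additive.ofMul b), ⟨?_, ?_, ?_⟩, ?_⟩
  · intro a _ b _ c
    show h' (Additive.ofMul a + Additive.ofMul b) _ = _
    rw [map_add, LinearMap.add_apply]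
  · intro a _ b c
    show h' _ (Additive.ofMul b + Additive.ofMul c) = _
    rw [map_add]
  · intro a _ b hab
    exact (mem_Aq hS).1 (hh' (Additive.ofMul a) mem_top) (Additive.ofMul b) hab
  · intro w hw y
    have h1 := he (Additive.ofMul w) hw
    show h' (Additive.ofMul w) (Additive.ofMul y) = _
    rw [h1]
    rfl

end Pool.Agent.Helper94.I2
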