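import Pool.Agent.Helper94.ETC.I2.Lin

set_option autoImplicit false

/-! # Functionals of the symbols on a subspace generated by elements of index at most two -/

namespace Pool.Agent.Helper94.I2

open Module Submodule

/-- functionals without relations take all values -/
theorem surj_of_ne {M ι : Type} [AddCommMonoid M] [Module (ZMod 2) M] [DecidableEq ι] (J : Finset ι)
    (F : ι → M →ₗ[ZMod 2] ZMod 2)
    (h : ∀ J' ⊆ J, J'.Nonempty → ∃ m, ∑ a ∈ J', F a m ≠ 0) (s : ι → ZMod 2) :
    ∃ m, ∀ a ∈ J, F a m = s a := by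
  classical
  let τ : M →ₗ[ZMod 2] (J → ZMod 2) := LinearMap.pi fun a => F a
  by_contra hc
  have hs : (fun a : J => s a) ∉ LinearMap.range τ := by
    rintro ⟨m, hm⟩
    exact hc ⟨m, fun a ha => congrFun hm ⟨a, ha⟩⟩
  obtain ⟨φ, hφ1, hφ2⟩ := Submodule.exists_le_ker_of_notMem hs
  let c : J → ZMod 2 := fun i => φ (fun j => if i = j then 1 else 0)
  have hφ : ∀ x : J → ZMod 2, φ x = ∑ i, x i * c i := fun x => by
    rw [LinearMap.pi_apply_eq_sum_univ φ x]; rfl
  let T : Finset J := Finset.univ.filter fun i => c i = 1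
  have hT : ∀ x : J → ZMod 2, φ x = ∑ i ∈ T, x i := by
    intro x
    rw [hφ, Finset.sum_filter]
    refine Finset.sum_congr rfl fun i _ => ?_
    rcases z01 (c i) with h1 | h1
    · rw [h1, mul_zero, if_neg (by decide)]
    · rw [h1, mul_one, if_pos rfl]
  have hne : T.Nonempty := by
    rw [Finset.nonempty_iff_ne_empty]
    intro h0
    apply hφ1
    rw [hT, h0, Finset.sum_empty]
  obtain ⟨m, hm⟩ := h (T.map (Function.Embedding.subtype _)) (fun a ha => by
    obtain ⟨b, -, rfl⟩ := Finset.mem_map.1 ha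
    exact b.2) (hne.map)
  apply hm
  rw [Finset.sum_map]
  have h1 : τ m ∈ LinearMap.ker φ := hφ2 ⟨m, rfl⟩
  have h2 : φ (τ m) = 0 := h1
  rw [hT] at h2
  exact h2

theorem exists_factor {M N : Type} [AddCommGroup M] [AddCommGroup N] [Module (ZMod 2) M]
    [Module (ZMod 2) N] (Θ : M →ₗ[ZMod 2] N) (p : M →ₗ[ZMod 2] ZMod 2)
    (h : ∀ m, Θ m = 0 → p m = 0) : ∃ p' : N →ₗ[ZMod 2] ZMod 2, ∀ m, p m = p' (Θ m) := by
  have h1 : p ∈ (LinearMap.ker Θ).dualAnnihilator := by
    rw [mem_dualAnnihilator]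
    exact fun m hm => h m hm
  rw [← LinearMap.range_dualMap_eq_dualAnnihilator_ker] at h1
  obtain ⟨p', rfl⟩ := h1
  exact ⟨p', fun _ => rfl⟩

variable {V : Type} [AddCommGroup V] [Module (ZMod 2) V]
variable {A : V → Submodule (ZMod 2) (Dual (ZMod 2) V)}

/-- the functional belonging to an element of index at most two, and a vector where it is one -/
structure Dt (A : V → Submodule (ZMod 2) (Dual (ZMod 2) V)) where
  lam : V → Dual (ZMod 2) V
  g : V → V
  mem : ∀ a ∈ Ix A, lam a ∈ A a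
  two : ∀ a ∈ Ix A, ∀ f ∈ A a, f = 0 ∨ f = lam a
  one : ∀ a, lam a ≠ 0 → lam a (g a) = 1

theorem exists_dt : Nonempty (Dt A) := by
  have h1 : ∀ a ∈ Ix A, ∃ l, l ∈ A a ∧ ∀ f ∈ A a, f = 0 ∨ f = l := fun a ha => ha
  choose! lam h1 h2 using h1
  have h3 : ∀ a, lam a ≠ 0 → ∃ g, lam a g = 1 := by
    intro a ha
    by_contra hc
    push Not at hc
    apply ha
    refine LinearMap.ext fun x => ?_
    exact (z01 (lam a x)).resolve_right (hc x)
  choose! g hg using h3
  exact ⟨⟨lam, g, h1, h2, hg⟩⟩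

namespace Dt

variable (d : Dt A)

theorem val {h : V →ₗ[ZMod 2] Dual (ZMod 2) V} (hh : h ∈ Sy A (span (ZMod 2) (Ix A))) {a : V}
    (ha : a ∈ Ix A) : h a = h a (d.g a) • d.lam a := by
  have h1 : h a ∈ A a := hh a (subset_span ha)
  rcases d.two a ha _ h1 with h2 | h2
  · rw [h2, LinearMap.zero_apply, zero_smul]
  · by_cases h3 : d.lam a = 0
    · rw [h2, h3, smul_zero]
    · rw [h2, d.one a h3, one_smul]

/-- the functional `h ↦ h a (g a)` -/
def F (a : V) : (V →ₗ[ZMod 2] Dual (ZMod 2) V) →ₗ[ZMod 2] ZMod 2 where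
  toFun h := h a (d.g a)
  map_add' _ _ := rfl
  map_smul' _ _ := rfl

theorem F_apply (a : V) (h : V →ₗ[ZMod 2] Dual (ZMod 2) V) : d.F a h = h a (d.g a) := rfl

/-- `J` represents `p` -/
def Rp (p : (V →ₗ[ZMod 2] Dual (ZMod 2) V) →ₗ[ZMod 2] ZMod 2) (J : Finset V) : Prop :=
  (∀ a ∈ J, a ∈ Ix A ∧ d.lam a ≠ 0) ∧
  ∀ h ∈ Sy A (span (ZMod 2) (Ix A)), p h = ∑ a ∈ J, h a (d.g a)

theorem exists_rep [Finite V] (p : (V →ₗ[ZMod 2] Dual (ZMod 2) V) →ₗ[ZMod 2] ZMod 2)
    (hp : ∀ h : V →ₗ[ZMod 2] Dual (ZMod 2) V, (∀ e ∈ span (ZMod 2) (Ix A), h e = 0) → p h = 0) :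
    ∃ J, d.Rp p J := by
  classical
  have : Fintype V := Fintype.ofFinite V
  let I : Type := {a : V // a ∈ Ix A}
  let Θ : (V →ₗ[ZMod 2] Dual (ZMod 2) V) →ₗ[ZMod 2] (I → Dual (ZMod 2) V) :=
    LinearMap.pi fun a => LinearMap.applyₗ (a.1 : V)
  have hΘ : ∀ h a, Θ h a = h a.1 := fun _ _ => rfl
  have hker : ∀ h, Θ h = 0 → p h = 0 := by
    intro h hh
    apply hp
    intro e he
    have h0 : ∀ a ∈ Ix A, h a = 0 := fun a ha => congrFun hh ⟨a, ha⟩
    have : span (ZMod 2) (Ix A) ≤ LinearMap.ker h := span_le.2 fun a ha => h0 a ha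
    exact this he
  obtain ⟨p', hp'⟩ := exists_factor Θ p (fun h hh => hker h hh)
  have hpp : ∀ h, p h = p' (Θ h) := hp'
  let y : I → V := fun a => (evalEquiv (ZMod 2) V).symm (p' ∘ₗ LinearMap.single (ZMod 2) (fun _ : I => Dual (ZMod 2) V) a)
  have hy : ∀ (a : I) (f : Dual (ZMod 2) V), p' (Pi.single a f) = f (y a) := by
    intro a f
    rw [apply_evalEquiv_symm_apply]
    rfl
  refine ⟨(Finset.univ.filter fun a : I => d.lam a.1 (y a) = 1).map
    (Function.Embedding.subtype _), ?_, ?_⟩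
  · intro a ha
    obtain ⟨b, hb, rfl⟩ := Finset.mem_map.1 ha
    have hb1 : d.lam b.1 (y b) = 1 := (Finset.mem_filter.1 hb).2
    refine ⟨b.2, fun h0 => ?_⟩
    have h0' : d.lam b.1 = 0 := h0
    rw [h0', LinearMap.zero_apply] at hb1
    exact zero_ne_one hb1
  · intro h hh
    rw [hpp, Finset.sum_map, Finset.sum_filter]
    have e1 : Θ h = ∑ a : I, Pi.single a (h a.1) := by
      rw [Finset.univ_sum_single]; rfl
    rw [e1, map_sum]
    refine Finset.sum_congr rfl fun a _ => ?_
    rw [hy, d.val hh a.2]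
    show h a.1 (d.g a.1) • d.lam a.1 (y a) = _
    rcases z01 (d.lam a.1 (y a)) with h1 | h1
    · rw [h1, smul_zero, if_neg (by decide)]
    · rw [h1, if_pos rfl]
      show h a.1 (d.g a.1) * 1 = _
      rw [mul_one]
      rfl

/-- a representation with the least number of terms -/
theorem exists_min [Finite V] (p : (V →ₗ[ZMod 2] Dual (ZMod 2) V) →ₗ[ZMod 2] ZMod 2)
    (hp : ∀ h : V →ₗ[ZMod 2] Dual (ZMod 2) V, (∀ e ∈ span (ZMod 2) (Ix A), h e = 0) → p h = 0) :
    ∃ J, d.Rp p J ∧ ∀ J', d.Rp p J' → J.card ≤ J'.card := by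
  classical
  obtain ⟨J0, hJ0⟩ := d.exists_rep p hp
  have hex : ∃ n, ∃ J, d.Rp p J ∧ J.card = n := ⟨_, J0, hJ0, rfl⟩
  obtain ⟨J, hJ, hn⟩ := Nat.find_spec hex
  refine ⟨J, hJ, fun J' hJ' => ?_⟩
  rw [hn]
  exact Nat.find_min' hex ⟨J', hJ', rfl⟩

section min

variable {p : (V →ₗ[ZMod 2] Dual (ZMod 2) V) →ₗ[ZMod 2] ZMod 2} {J : Finset V}
  (hJ : d.Rp p J) (hmin : ∀ J', d.Rp p J' → J.card ≤ J'.card)
include hJ hmin

theorem ind {J' : Finset V} (hs : J' ⊆ J) (hne : J'.Nonempty) :
    ∃ h ∈ Sy A (span (ZMod 2) (Ix A)), ∑ a ∈ J', h a (d.g a) ≠ 0 := by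
  classical
  by_contra hc
  push Not at hc
  have h1 : d.Rp p (J \ J') := by
    refine ⟨fun a ha => hJ.1 a (Finset.sdiff_subset ha), fun h hh => ?_⟩
    rw [hJ.2 h hh, ← Finset.sum_sdiff hs, hc h hh, add_zero]
  have h2 := hmin _ h1
  have h3 := Finset.card_sdiff_add_card_eq_card hs
  have h4 := hne.card_pos
  omega

/-- symbols with arbitrary values on `J` -/
theorem surj (s : V → ZMod 2) :
    ∃ h ∈ Sy A (span (ZMod 2) (Ix A)), ∀ a ∈ J, h a = s a • d.lam a := by
  classical
  obtain ⟨m, hm⟩ := surj_of_ne (M := Sy A (span (ZMod 2) (Ix A))) J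
    (fun a => d.F a ∘ₗ (Sy A (span (ZMod 2) (Ix A))).subtype) (fun J' hs hne => by
      obtain ⟨h, hh, h1⟩ := d.ind hJ hmin hs hne
      exact ⟨⟨h, hh⟩, h1⟩) s
  refine ⟨m.1, m.2, fun a ha => ?_⟩
  rw [d.val m.2 (hJ.1 a ha).1]
  have := hm a ha
  have h2 : m.1 a (d.g a) = s a := this
  rw [h2]

omit hmin in
theorem mem_E {a : V} (ha : a ∈ J) : a ∈ span (ZMod 2) (Ix A) := subset_span (hJ.1 a ha).1

/-- two functionals of a minimal representation are different -/
theorem two_ne (hL : Lk A) {b c : V} (hb : b ∈ J) (hc : c ∈ J) (hbc : b ≠ c) :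
    d.lam b ≠ d.lam c := by
  classical
  intro he
  obtain ⟨b1, b2⟩ := hJ.1 b hb
  obtain ⟨c1, c2⟩ := hJ.1 c hc
  have hbcE : b + c ∈ span (ZMod 2) (Ix A) := add_mem (subset_span b1) (subset_span c1)
  -- `A (b + c)` has at most two elements
  have hA : ∀ f ∈ A (b + c), f = 0 ∨ f = d.lam b := by
    intro f hf
    obtain ⟨k, k0, k1, -, -⟩ := hL (b + c) 0 b f hf 0 (zero_mem _) (by
      rw [add_zero, add_zero]; exact hf)
    have e : b + (b + c) = c := by rw [← add_assoc, vadd, zero_add]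
    rw [e] at k1
    have hk : f = k + (k + f) := by rw [← add_assoc, vadd, zero_add]
    rcases d.two b b1 k k0 with h1 | h1 <;> rcases d.two c c1 _ k1 with h2 | h2
    · left; rw [hk, h1] at *
      rw [h1] at h2
      simpa using h2
    · right; rw [h1] at h2; rw [he]; simpa using h2
    · right; rw [h1] at h2
      exact (aez.1 h2).symm
    · left
      rw [h1, ← he] at h2
      have := congrArg (fun t => d.lam b + t) h2
      simpa only [← add_assoc, vadd, zero_add] using this
  have hsum : ∀ h ∈ Sy A (span (ZMod 2) (Ix A)),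
      h (b + c) = (h b (d.g b) + h c (d.g c)) • d.lam b := by
    intro h hh
    rw [map_add, add_smul]
    nth_rw 1 [d.val hh b1]
    nth_rw 1 [d.val hh c1]
    rw [he]
  by_cases h0 : ∀ h ∈ Sy A (span (ZMod 2) (Ix A)), h b (d.g b) + h c (d.g c) = 0
  · obtain ⟨h, hh, h1⟩ := d.ind hJ hmin (J' := {b, c}) (by
      intro x hx
      rcases Finset.mem_insert.1 hx with rfl | hx
      · exact hb
      · rw [Finset.mem_singleton.1 hx]; exact hc) ⟨b, by simp⟩
    rw [Finset.sum_pair hbc] at h1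
    exact h1 (h0 h hh)
  push Not at h0
  obtain ⟨h', hh', h0⟩ := h0
  have hlA : d.lam b ∈ A (b + c) := by
    have h1 := hh' (b + c) hbcE
    rw [hsum h' hh', zne h0, one_smul] at h1
    exact h1
  have hIx : b + c ∈ Ix A := ⟨d.lam b, hlA, hA⟩
  have hlam : d.lam (b + c) = d.lam b := by
    rcases d.two _ hIx _ hlA with h1 | h1
    · exact absurd h1 b2
    · exact h1.symm
  have ht : ∀ h ∈ Sy A (span (ZMod 2) (Ix A)),
      h (b + c) (d.g (b + c)) = h b (d.g b) + h c (d.g c) := by
    intro h hh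
    rw [hsum h hh, LinearMap.smul_apply, ← hlam, d.one _ (by rw [hlam]; exact b2)]
    show _ * (1 : ZMod 2) = _
    rw [mul_one]
  have hb0 : b ≠ 0 := by
    rintro rfl
    have : d.lam 0 ∈ A 0 := d.mem 0 b1
    obtain ⟨h, hh, h1⟩ := d.ind hJ hmin (J' := {0}) (by simpa using hb) ⟨0, by simp⟩
    rw [Finset.sum_singleton, map_zero, LinearMap.zero_apply] at h1
    exact h1 rfl
  have hc0 : c ≠ 0 := by
    rintro rfl
    obtain ⟨h, hh, h1⟩ := d.ind hJ hmin (J' := {0}) (by simpa using hc) ⟨0, by simp⟩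
    rw [Finset.sum_singleton, map_zero, LinearMap.zero_apply] at h1
    exact h1 rfl
  have n1 : b + c ≠ b := fun h => hc0 (by simpa using h)
  have n2 : b + c ≠ c := fun h => hb0 (by simpa using h)
  by_cases hin : b + c ∈ J
  · obtain ⟨h, hh, h1⟩ := d.ind hJ hmin (J' := {b + c, b, c}) (by
      intro x hx
      simp only [Finset.mem_insert, Finset.mem_singleton] at hx
      rcases hx with rfl | rfl | rfl
      · exact hin
      · exact hb
      · exact hc) ⟨b, by simp⟩
    rw [Finset.sum_insert (by simp [hc0, hb0]), Finset.sum_pair hbc, ht h hh] at h1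
    exact h1 (vadd _)
  · have h1 : d.Rp p (insert (b + c) (J \ {b, c})) := by
      have hsub : ({b, c} : Finset V) ⊆ J := by
        intro x hx
        rcases Finset.mem_insert.1 hx with rfl | hx
        · exact hb
        · rw [Finset.mem_singleton.1 hx]; exact hc
      refine ⟨fun a ha => ?_, fun h hh => ?_⟩
      · rcases Finset.mem_insert.1 ha with rfl | ha
        · exact ⟨hIx, by rw [hlam]; exact b2⟩
        · exact hJ.1 a (Finset.sdiff_subset ha)
      · rw [Finset.sum_insert (fun h2 => hin (Finset.sdiff_subset h2)), hJ.2 h hh,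
          ← Finset.sum_sdiff hsub, Finset.sum_pair hbc, ht h hh, add_comm]
    have h2 := hmin _ h1
    have h3 := Finset.card_insert_le (b + c) (J \ {b, c})
    have hsub : ({b, c} : Finset V) ⊆ J := by
      intro x hx
      rcases Finset.mem_insert.1 hx with rfl | hx
      · exact hb
      · rw [Finset.mem_singleton.1 hx]; exact hc
    have h4 := Finset.card_sdiff_add_card_eq_card hsub
    have h5 : ({b, c} : Finset V).card = 2 := Finset.card_pair hbc
    omega

/-- no functionals of a minimal representation add up to zero -/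
theorem sum_ne [Finite V] (hL : Lk A) (n : ℕ) : ∀ J' ⊆ J, J'.Nonempty → J'.card ≤ n →
    ∑ a ∈ J', d.lam a ≠ 0 := by
  classical
  induction n with
  | zero =>
    intro J' _ hne hn
    have := hne.card_pos
    omega
  | succ n ih =>
    intro J' hs hne hn h0
    obtain ⟨b, hb⟩ := hne
    have hbJ := hs hb
    have hb2 := (hJ.1 b hbJ).2
    rw [← Finset.add_sum_erase J' _ hb] at h0
    by_cases hc : (J'.erase b).Nonempty
    swap
    · rw [Finset.not_nonempty_iff_eq_empty] at hc
      rw [hc, Finset.sum_empty, add_zero] at h0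
      exact hb2 h0
    obtain ⟨c, hc⟩ := hc
    have hcJ' : c ∈ J' := Finset.mem_of_mem_erase hc
    have hcJ := hs hcJ'
    have hcb : c ≠ b := Finset.ne_of_mem_erase hc
    have hlbc := d.two_ne hJ hmin hL hbJ hcJ hcb.symm
    rw [← Finset.add_sum_erase _ _ hc] at h0
    set K := (J'.erase b).erase c with hK
    have hKJ : ∀ a ∈ K, a ∈ J := fun a ha =>
      hs (Finset.mem_of_mem_erase (Finset.mem_of_mem_erase ha))
    have hKb : ∀ a ∈ K, a ≠ b := fun a ha => Finset.ne_of_mem_erase (Finset.mem_of_mem_erase ha)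
    have hKc : ∀ a ∈ K, a ≠ c := fun a ha => Finset.ne_of_mem_erase ha
    have hE : ∀ a ∈ J, a ∈ span (ZMod 2) (Ix A) := fun a ha => d.mem_E hJ ha
    have hlb : d.lam b = d.lam c + ∑ a ∈ K, d.lam a := aez.1 h0
    -- the two vectors
    set v := (∑ a ∈ K, a) + b with hv
    set v' := (∑ a ∈ K, a) + c with hv'
    have hKE : (∑ a ∈ K, a) ∈ span (ZMod 2) (Ix A) :=
      Submodule.sum_mem _ fun a ha => hE a (hKJ a ha)
    have hvE : v ∈ span (ZMod 2) (Ix A) := add_mem hKE (hE b hbJ)
    have hvE' : v' ∈ span (ZMod 2) (Ix A) := add_mem hKE (hE c hcJ)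
    have hvv : v + v' = b + c := by
      have : v + v' = (b + c) + ((∑ a ∈ K, a) + ∑ a ∈ K, a) := by
        rw [hv, hv']; abel
      rw [this, vadd, add_zero]
    obtain ⟨h1, hh1, e1⟩ := d.surj hJ hmin (fun a => if a = b then 1 else 0)
    obtain ⟨h2, hh2, e2⟩ := d.surj hJ hmin (fun a => if a = b then 0 else 1)
    have f1 : d.lam b ∈ A (b + c) := by
      have := hh1 (b + c) (add_mem (hE b hbJ) (hE c hcJ))
      rw [map_add, e1 b hbJ, e1 c hcJ, if_pos rfl, if_neg hcb, one_smul, zero_smul,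
        add_zero] at this
      exact this
    have f2' : h2 v' = d.lam b := by
      rw [hv', map_add, map_sum, e2 c hcJ, if_neg hcb, one_smul, hlb, add_comm]
      congr 1
      refine Finset.sum_congr rfl fun a ha => ?_
      rw [e2 a (hKJ a ha), if_neg (hKb a ha), one_smul]
    have f2 : d.lam b ∈ A v' := by
      have := hh2 v' hvE'
      rwa [f2'] at this
    have hns : v' ∉ span (ZMod 2) {v} := by
      intro hm
      obtain ⟨t, ht⟩ := mem_span_singleton.1 hm
      rcases z01 t with rfl | rfl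
      · rw [zero_smul] at ht
        rw [← ht, map_zero] at f2'
        exact hb2 f2'.symm
      · rw [one_smul, hv, hv'] at ht
        exact hcb (add_left_cancel ht).symm
    obtain ⟨l, hl1, hl2⟩ := Submodule.exists_le_ker_of_notMem hns
    have l1 : l v' = 1 := zne hl1
    have l0 : l v = 0 := hl2 (mem_span_singleton_self v)
    have hh0 : l.smulRight (d.lam b) ∈ Sy A (span (ZMod 2) {v, v'}) := by
      intro w hw
      obtain ⟨α, β, rfl⟩ := mem_span_pair.1 hw
      rw [LinearMap.smulRight_apply, map_add, map_smul, map_smul, l0, l1, smul_zero, zero_add,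
        smul_eq_mul, mul_one]
      rcases z01 β with rfl | rfl
      · have e0 : (0 : ZMod 2) • d.lam b = 0 := zero_smul _ _
        rw [e0]; exact (A _).zero_mem
      · rcases z01 α with rfl | rfl
        · rw [one_smul, one_smul, zero_smul, zero_add]; exact f2
        · rw [one_smul, one_smul, one_smul, hvv]; exact f1
    obtain ⟨h, hh, he⟩ := ex_E hL _ _ hh0
    have hhE : h ∈ Sy A (span (ZMod 2) (Ix A)) := Sy_anti le_sup_right hh
    have g1 : h v = 0 := by
      rw [he v (subset_span (by simp)), LinearMap.smulRight_apply, l0, zero_smul]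
    have g2 : h v' = d.lam b := by
      rw [he v' (subset_span (by simp)), LinearMap.smulRight_apply, l1, one_smul]
    have hval : ∀ a ∈ J, h a = h a (d.g a) • d.lam a := fun a ha => d.val hhE (hJ.1 a ha).1
    -- the values on `K` and at `b` are zero
    have hz : ∀ a ∈ J'.erase c, h a (d.g a) = 0 := by
      intro a ha
      by_contra hne
      have hT : ((J'.erase c).filter fun a => h a (d.g a) = 1).Nonempty :=
        ⟨a, Finset.mem_filter.2 ⟨ha, zne hne⟩⟩
      have hcard : ((J'.erase c).filter fun a => h a (d.g a) = 1).card ≤ n := by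
        have := Finset.card_filter_le (J'.erase c) (fun a => h a (d.g a) = 1)
        have h3 := Finset.card_erase_of_mem hcJ'
        omega
      refine ih _ (fun x hx => hs (Finset.mem_of_mem_erase (Finset.filter_subset _ _ hx))) hT
        hcard ?_
      rw [Finset.sum_filter]
      have h4 : h v = ∑ a ∈ J'.erase c, h a := by
        have hbm : b ∈ J'.erase c := Finset.mem_erase.2 ⟨hcb.symm, hb⟩
        rw [hv, map_add, map_sum, ← Finset.add_sum_erase _ _ hbm, add_comm]
        congr 1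
        rw [hK, Finset.erase_right_comm]
      have h6 : ∑ a ∈ J'.erase c, (if h a (d.g a) = 1 then d.lam a else 0) = h v := by
        rw [h4]
        refine Finset.sum_congr rfl fun a ha => ?_
        have h7 := hval a (hs (Finset.mem_of_mem_erase ha))
        rcases z01 (h a (d.g a)) with h5 | h5
        · rw [if_neg (by rw [h5]; exact zero_ne_one)]
          rw [h5, zero_smul] at h7
          exact h7.symm
        · rw [if_pos h5]
          rw [h5, one_smul] at h7
          exact h7.symm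
      rw [h6, g1]
    have hK0 : ∑ a ∈ K, h a = 0 := Finset.sum_eq_zero fun a ha => by
      rw [hval a (hKJ a ha), hz a (Finset.mem_erase.2 ⟨hKc a ha,
        Finset.mem_of_mem_erase (Finset.mem_of_mem_erase ha)⟩), zero_smul]
    rw [hv', map_add, map_sum, hK0, zero_add, hval c hcJ] at g2
    rcases z01 (h c (d.g c)) with h5 | h5
    · rw [h5, zero_smul] at g2
      exact hb2 g2.symm
    · rw [h5, one_smul] at g2
      exact hlbc g2.symm

end min

end Dt

/-- functionals of the symbols on `E` are evaluations -/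
theorem pure [Finite V] (hL : Lk A) (p : (V →ₗ[ZMod 2] Dual (ZMod 2) V) →ₗ[ZMod 2] ZMod 2)
    (hp : ∀ h : V →ₗ[ZMod 2] Dual (ZMod 2) V, (∀ e ∈ span (ZMod 2) (Ix A), h e = 0) → p h = 0) :
    ∃ u ∈ span (ZMod 2) (Ix A), ∃ y, ∀ h ∈ Sy A (span (ZMod 2) (Ix A)), p h = h u y := by
  classical
  obtain ⟨d⟩ := exists_dt (A := A)
  obtain ⟨J, hJ, hmin⟩ := d.exists_min p hp
  obtain ⟨y, hy⟩ := surj_of_ne (M := V) J d.lam (fun J' hs hne => by
    have h1 := d.sum_ne hJ hmin hL _ J' hs hne le_rfl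
    by_contra hc
    push Not at hc
    apply h1
    refine LinearMap.ext fun m => ?_
    rw [LinearMap.sum_apply]
    exact hc m) (fun _ => 1)
  refine ⟨∑ a ∈ J, a, Submodule.sum_mem _ fun a ha => d.mem_E hJ ha, y, fun h hh => ?_⟩
  rw [hJ.2 h hh, map_sum, LinearMap.sum_apply]
  refine Finset.sum_congr rfl fun a ha => ?_
  have h1 := d.val hh (hJ.1 a ha).1
  have h2 : h a y = (h a (d.g a) • d.lam a) y := congrArg (fun f : Dual (ZMod 2) V => f y) h1
  rw [h2, LinearMap.smul_apply, hy a ha, smul_eq_mul, mul_one]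

end Pool.Agent.Helper94.I2
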