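import Pool.Agent.Helper94.ETC.I2.Pure

set_option autoImplicit false

/-! # Extension of symbols from a subspace containing all elements of index at most two -/

namespace Pool.Agent.Helper94.I2

open Module Submodule

variable {V : Type} [AddCommGroup V] [Module (ZMod 2) V]
variable {A : V → Submodule (ZMod 2) (Dual (ZMod 2) V)}

/-- a subspace `F` containing the elements of index at most two such that symbols extend along `F`
and the symbols on `F` are determined by their values on the elements of index at most two -/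
structure Gd (A : V → Submodule (ZMod 2) (Dual (ZMod 2) V)) (F : Submodule (ZMod 2) V) : Prop where
  le : span (ZMod 2) (Ix A) ≤ F
  reg : ∀ (W : Submodule (ZMod 2) V), ∀ h ∈ Sy A W, ∃ h' ∈ Sy A (W ⊔ F), ∀ w ∈ W, h' w = h w
  un : ∀ h ∈ Sy A F, (∀ e ∈ span (ZMod 2) (Ix A), h e = 0) → ∀ e ∈ F, h e = 0

theorem gd_E [Finite V] (hL : Lk A) : Gd A (span (ZMod 2) (Ix A)) :=
  ⟨le_rfl, fun W h hh => ex_E hL W h hh, fun _ _ h0 => h0⟩

/-- symbols on `F + x` extend to `z` -/
theorem ex_one [Finite V] (hL : Lk A) {F : Submodule (ZMod 2) V} (hF : Gd A F) (x z : V) :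
    Ex A (F ⊔ span (ZMod 2) {x}) z := by
  intro h0 hh0
  have hx : x ∈ F ⊔ span (ZMod 2) {x} := mem_sup_right (mem_span_singleton_self x)
  -- symbols on `⟨x, u⟩` extend
  have key : ∀ u ∈ F, ∀ h ∈ Sy A (F ⊔ span (ZMod 2) {x}),
      ∃ h' ∈ Sy A (F ⊔ span (ZMod 2) {x} ⊔ span (ZMod 2) {z}), h' x = h x ∧ h' u = h u := by
    intro u hu h hh
    have hsub : span (ZMod 2) {x, u} ≤ F ⊔ span (ZMod 2) {x} := by
      rw [span_le]
      rintro y (rfl | hy)
      · exact hx
      · rw [Set.mem_singleton_iff.1 hy]; exact mem_sup_left hu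
    obtain ⟨h1, hh1, e1⟩ := ex_pair hL x u z h (Sy_anti hsub hh)
    obtain ⟨h2, hh2, e2⟩ := hF.reg _ h1 hh1
    have m1 : x ∈ span (ZMod 2) {x, u} := subset_span (by simp)
    have m2 : u ∈ span (ZMod 2) {x, u} := subset_span (by simp)
    refine ⟨h2, Sy_anti ?_ hh2, ?_, ?_⟩
    · refine sup_le (sup_le le_sup_right ?_) ?_
      · rw [span_le, Set.singleton_subset_iff]
        exact mem_sup_left (mem_sup_left m1)
      · rw [span_le, Set.singleton_subset_iff]
        exact mem_sup_left (mem_sup_right (mem_span_singleton_self z))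
    · rw [e2 x (mem_sup_left m1), e1 x m1]
    · rw [e2 u (mem_sup_left m2), e1 u m2]
  obtain ⟨h1, hh1, e1, -⟩ := key 0 (zero_mem _) h0 hh0
  have hle : F ⊔ span (ZMod 2) {x} ≤ F ⊔ span (ZMod 2) {x} ⊔ span (ZMod 2) {z} := le_sup_left
  have hk0 : h0 + h1 ∈ Sy A (F ⊔ span (ZMod 2) {x}) := (Sy A _).add_mem hh0 (Sy_anti hle hh1)
  have hk0x : (h0 + h1) x = 0 := by rw [LinearMap.add_apply, e1, vadd]
  -- symbols on `F + x + z` killing `x`, up to maps killing the elements of index at most two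
  let N : Submodule (ZMod 2) (V →ₗ[ZMod 2] Dual (ZMod 2) V) :=
    { carrier := {k | ∃ k' ∈ Sy A (F ⊔ span (ZMod 2) {x} ⊔ span (ZMod 2) {z}), k' x = 0 ∧
        ∀ e ∈ span (ZMod 2) (Ix A), k e = k' e}
      add_mem' := by
        rintro a b ⟨a', ha', a1, a2⟩ ⟨b', hb', b1, b2⟩
        refine ⟨a' + b', (Sy A _).add_mem ha' hb', ?_, fun e he => ?_⟩
        · rw [LinearMap.add_apply, a1, b1, add_zero]
        · rw [LinearMap.add_apply, LinearMap.add_apply, a2 e he, b2 e he]
      zero_mem' := ⟨0, (Sy A _).zero_mem, rfl, fun _ _ => rfl⟩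
      smul_mem' := by
        rintro c a ⟨a', ha', a1, a2⟩
        refine ⟨c • a', (Sy A _).smul_mem c ha', ?_, fun e he => ?_⟩
        · rw [LinearMap.smul_apply, a1, smul_zero]
        · rw [LinearMap.smul_apply, LinearMap.smul_apply, a2 e he] }
  by_cases hN : h0 + h1 ∈ N
  · obtain ⟨k, hk, k1, k2⟩ := hN
    have k3 : ∀ e ∈ F, k e = (h0 + h1) e := by
      have h3 := hF.un (k + (h0 + h1)) ((Sy A _).add_mem (Sy_anti (le_sup_left.trans hle) hk)
        (Sy_anti le_sup_left hk0)) (fun e he => by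
          rw [LinearMap.add_apply, k2 e he, vadd])
      intro e he
      have h4 := h3 e he
      rw [LinearMap.add_apply] at h4
      exact aez.1 h4
    refine ⟨h1 + k, (Sy A _).add_mem hh1 hk, fun w hw => ?_⟩
    obtain ⟨e, he, y, hy, rfl⟩ := mem_sup.1 hw
    obtain ⟨c, rfl⟩ := mem_span_singleton.1 hy
    have h2 : k (e + c • x) = (h0 + h1) (e + c • x) := by
      rw [map_add, map_add, map_smul, map_smul, k1, hk0x, k3 e he]
    rw [LinearMap.add_apply, h2, LinearMap.add_apply, add_comm (h0 _), ← add_assoc, vadd, zero_add]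
  · exfalso
    obtain ⟨p, hp1, hp2⟩ := Submodule.exists_le_ker_of_notMem (K := ZMod 2)
      (V := V →ₗ[ZMod 2] Dual (ZMod 2) V) (p := N) (v := h0 + h1) hN
    obtain ⟨u, hu, y, hy⟩ := pure hL p (fun h hh => by
      have : h ∈ N := ⟨0, (Sy A _).zero_mem, rfl, fun e he => hh e he⟩
      exact hp2 this)
    obtain ⟨k, hk, k1, k2⟩ := key u (hF.le hu) _ hk0
    have hkN : k ∈ N := ⟨k, hk, by rw [k1, hk0x], fun _ _ => rfl⟩
    have h3 : p k = 0 := hp2 hkN
    have hkE : k ∈ Sy A (span (ZMod 2) (Ix A)) :=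
      Sy_anti (hF.le.trans (le_sup_left.trans hle)) hk
    have h4 : p (h0 + h1) = (h0 + h1) u y := hy _ (Sy_anti (hF.le.trans le_sup_left) hk0)
    rw [hy k hkE, k2] at h3
    exact hp1 (h4.trans h3)

/-- the elements at which symbols are determined by the values on `F` -/
def Un (A : V → Submodule (ZMod 2) (Dual (ZMod 2) V)) (F : Submodule (ZMod 2) V) : Set V :=
  {z | ∀ f, (∀ u ∈ F, f ∈ A (z + u)) → (∀ u ∈ F, f u = 0) → f = 0}

/-- symbols are symmetric -/
def Sm (A : V → Submodule (ZMod 2) (Dual (ZMod 2) V)) : Prop :=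
  ∀ (W : Submodule (ZMod 2) V), ∀ h ∈ Sy A W, ∀ a ∈ W, ∀ b ∈ W, h a b = h b a

theorem val_one [Finite V] (hL : Lk A) (hs : Sm A) {F : Submodule (ZMod 2) V} (hF : Gd A F)
    (x z : V) {h : V →ₗ[ZMod 2] Dual (ZMod 2) V} (hh : h ∈ Sy A (F ⊔ span (ZMod 2) {x})) :
    ∃ g : Dual (ZMod 2) V, (∀ u ∈ F ⊔ span (ZMod 2) {x}, g + h u ∈ A (z + u)) ∧
      ∀ u ∈ F, g u = h u z := by
  obtain ⟨h', hh', e⟩ := ex_one hL hF x z h hh
  have hz : z ∈ F ⊔ span (ZMod 2) {x} ⊔ span (ZMod 2) {z} :=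
    mem_sup_right (mem_span_singleton_self z)
  refine ⟨h' z, fun u hu => ?_, fun u hu => ?_⟩
  · rw [← e u hu, ← map_add]
    exact hh' _ (add_mem hz (mem_sup_left hu))
  · rw [← e u (mem_sup_left hu)]
    exact hs _ h' hh' z hz u (mem_sup_left (mem_sup_left hu))

theorem ex_un [Finite V] (hL : Lk A) (hs : Sm A) {F : Submodule (ZMod 2) V} (hF : Gd A F) {z : V}
    (hz : z ∈ Un A F) {W : Submodule (ZMod 2) V} (hW : F ≤ W) : Ex A W z := by
  intro h hh
  have hx : ∀ w ∈ W, F ⊔ span (ZMod 2) {w} ≤ W := fun w hw =>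
    sup_le hW (by rw [span_le, Set.singleton_subset_iff]; exact hw)
  obtain ⟨g0, hg0, k0⟩ := val_one hL hs hF 0 z (Sy_anti (hx 0 (zero_mem _)) hh)
  refine ex_of_val hh g0 fun w hw => ?_
  obtain ⟨g, hg, k1⟩ := val_one hL hs hF w z (Sy_anti (hx w hw) hh)
  have h1 : g0 + g = 0 := by
    refine hz _ (fun u hu => ?_) fun u hu => ?_
    · have e1 := (A (z + u)).add_mem (hg0 u (mem_sup_left hu)) (hg u (mem_sup_left hu))
      have e2 : g0 + h u + (g + h u) = g0 + g + (h u + h u) := by abel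
      rw [e2, vadd, add_zero] at e1
      exact e1
    · rw [LinearMap.add_apply, k0 u hu, k1 u hu, vadd]
  rw [aez.1 h1]
  exact hg w (mem_sup_right (mem_span_singleton_self w))

theorem gd_un [Finite V] (hL : Lk A) (hs : Sm A) {F : Submodule (ZMod 2) V} (hF : Gd A F) {z : V}
    (hz : z ∈ Un A F) : Gd A (F ⊔ span (ZMod 2) {z}) := by
  refine ⟨hF.le.trans le_sup_left, fun W h hh => ?_, fun h hh h0 => ?_⟩
  · obtain ⟨h1, hh1, e1⟩ := hF.reg W h hh
    obtain ⟨h2, hh2, e2⟩ := ex_un hL hs hF hz le_sup_right h1 hh1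
    rw [sup_assoc] at hh2
    exact ⟨h2, hh2, fun w hw => by rw [e2 w (mem_sup_left hw), e1 w hw]⟩
  · have h1 : ∀ e ∈ F, h e = 0 := hF.un h (Sy_anti le_sup_left hh) h0
    have hzm : z ∈ F ⊔ span (ZMod 2) {z} := mem_sup_right (mem_span_singleton_self z)
    have h2 : h z = 0 := by
      refine hz (h z) (fun u hu => ?_) fun u hu => ?_
      · have h3 := hh (z + u) (add_mem hzm (mem_sup_left hu))
        rwa [map_add, h1 u hu, add_zero] at h3
      · rw [hs _ h hh z hzm u (mem_sup_left hu), h1 u hu]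
        rfl
    have h3 : F ⊔ span (ZMod 2) {z} ≤ LinearMap.ker h := by
      refine sup_le (fun e he => h1 e he) ?_
      rw [span_le, Set.singleton_subset_iff]
      exact h2
    exact fun e he => h3 he

/-- a largest subspace `F` as above contains the elements at which symbols are determined by the
values on `F` -/
theorem exists_gd [Finite V] (hL : Lk A) (hs : Sm A) :
    ∃ F : Submodule (ZMod 2) V, Gd A F ∧ ∀ z ∈ Un A F, z ∈ F := by
  have hne : Nonempty {F : Submodule (ZMod 2) V // Gd A F} := ⟨⟨_, gd_E hL⟩⟩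
  obtain ⟨⟨F, hF⟩, hmax⟩ := Finite.exists_max
    (fun F : {F : Submodule (ZMod 2) V // Gd A F} => (F.1 : Set V).ncard)
  refine ⟨F, hF, fun z hz => ?_⟩
  by_contra hzF
  have h1 := hmax ⟨_, gd_un hL hs hF hz⟩
  have h2 : (F : Set V).ncard < ((F ⊔ span (ZMod 2) {z} : Submodule (ZMod 2) V) : Set V).ncard :=
    Set.ncard_lt_ncard ⟨fun y hy => mem_sup_left hy,
      fun h2 => hzF (h2 (mem_sup_right (mem_span_singleton_self z)))⟩ (Set.toFinite _)
  exact absurd h1 (not_le.2 h2)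

/-- extension step by step -/
theorem ex_all [Finite V] {F : Submodule (ZMod 2) V} (hF : Gd A F)
    (hc : ∀ W : Submodule (ZMod 2) V, F ≤ W → W ≠ ⊤ → ∃ z, z ∉ W ∧ Ex A W z)
    (W : Submodule (ZMod 2) V) (h : V →ₗ[ZMod 2] Dual (ZMod 2) V) (hh : h ∈ Sy A W) :
    ∃ h' ∈ Sy A ⊤, ∀ w ∈ W, h' w = h w := by
  have step : ∀ n : ℕ, ∀ W : Submodule (ZMod 2) V, F ≤ W →
      Nat.card V ≤ Nat.card W + n → ∀ h ∈ Sy A W, ∃ h' ∈ Sy A ⊤, ∀ w ∈ W, h' w = h w := by
    intro n
    induction n with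
    | zero =>
      intro W _ hn h hh
      have : W = ⊤ := by
        by_contra hne
        obtain ⟨z, -, hz⟩ := SetLike.exists_of_lt (lt_top_iff_ne_top.2 hne)
        have h1 : (W : Set V).ncard < (Set.univ : Set V).ncard :=
          Set.ncard_lt_ncard ⟨Set.subset_univ _, fun h2 => hz (h2 (Set.mem_univ z))⟩
            (Set.toFinite _)
        rw [Set.ncard_univ] at h1
        have h2 : Nat.card W = (W : Set V).ncard := rfl
        omega
      exact ⟨h, by rw [← this]; exact hh, fun _ _ => rfl⟩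
    | succ n ih =>
      intro W hW hn h hh
      by_cases hne : W = ⊤
      · exact ⟨h, by rw [← hne]; exact hh, fun _ _ => rfl⟩
      obtain ⟨z, hz, hex⟩ := hc W hW hne
      obtain ⟨h1, hh1, e1⟩ := hex h hh
      have hlt : Nat.card W < Nat.card (W ⊔ span (ZMod 2) {z} : Submodule (ZMod 2) V) := by
        have h1 := Set.ncard_lt_ncard (s := (W : Set V))
          (t := ((W ⊔ span (ZMod 2) {z} : Submodule (ZMod 2) V) : Set V))
          ⟨fun y hy => mem_sup_left hy,
            fun h2 => hz (h2 (mem_sup_right (mem_span_singleton_self z)))⟩ (Set.toFinite _)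
        exact h1
      obtain ⟨h2, hh2, e2⟩ := ih _ (hW.trans le_sup_left) (by omega) h1 hh1
      exact ⟨h2, hh2, fun w hw => by rw [e2 w (mem_sup_left hw), e1 w hw]⟩
  obtain ⟨h1, hh1, e1⟩ := hF.reg W h hh
  obtain ⟨h2, hh2, e2⟩ := step (Nat.card V) _ le_sup_right (Nat.le_add_left _ _) h1 hh1
  exact ⟨h2, hh2, fun w hw => by rw [e2 w (mem_sup_left hw), e1 w hw]⟩

end Pool.Agent.Helper94.I2
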